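import Mathlib

set_option autoImplicit false
set_option linter.unusedSectionVars false
open Finset

namespace Pool.Agent.X145.KW

section defs
variable {α : Type*} [Fintype α] [DecidableEq α]

/-- `v` is the parent of `u` in the rooted tree with root `root` and parent map `par`. -/
def ParRel (root : α) (par : α → α) (u v : α) : Prop := u ≠ root ∧ par u = v

/-- `A` is a `k`-ary chain of the relation `r` (`r x y` is read `x < y`): there is a rooted tree
with vertex set `A` (given by its root and its parent map; every vertex reaches the root), in which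
every vertex has at most `k` children and such that `r x y` whenever `y` is a descendant of `x`. -/
def IsKaryChain (r : α → α → Prop) (k : ℕ) (A : Finset α) : Prop :=
  ∃ (root : α) (par : α → α), root ∈ A ∧
    (∀ x ∈ A, x ≠ root → par x ∈ A) ∧
    (∀ x ∈ A, Relation.ReflTransGen (ParRel root par) x root) ∧
    (∀ x ∈ A, (A.filter fun y => y ≠ root ∧ par y = x).card ≤ k) ∧
    (∀ x ∈ A, ∀ y ∈ A, Relation.TransGen (ParRel root par) y x → r x y)

/-- The `k`-width: the least number of classes in a partition into `k`-ary chains. -/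
noncomputable def kWidth (r : α → α → Prop) (k : ℕ) : ℕ :=
  sInf {m : ℕ | ∃ c : α → Fin m, ∀ i, IsKaryChain r k (univ.filter fun x => c x = i)}

theorem IsKaryChain.mono {r r' : α → α → Prop} (h : ∀ x y, r x y → r' x y) {k : ℕ} {A : Finset α}
    (hA : IsKaryChain r k A) : IsKaryChain r' k A := by
  obtain ⟨root, par, h1, h2, h3, h4, h5⟩ := hA
  exact ⟨root, par, h1, h2, h3, h4, fun x hx y hy hxy => h _ _ (h5 x hx y hy hxy)⟩

theorem class_bound (r : α → α → Prop) (k m : ℕ) (c : α → Fin m)
    (h : ∀ i, IsKaryChain r k (univ.filter fun x => c x = i)) (S N : Finset α)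
    (hN : ∀ x y, y ∈ S → r x y → x ∈ N) : S.card ≤ m + k * N.card := by
  choose root par h1 h2 _h3 h4 h5 using h
  have hsplit := Finset.card_filter_add_card_filter_not (s := S) (fun y => y = root (c y))
  have hA : (S.filter fun y => y = root (c y)).card ≤ m := by
    have : (S.filter fun y => y = root (c y)).card ≤ (univ : Finset (Fin m)).card := by
      refine Finset.card_le_card_of_injOn c (fun y _ => mem_univ _) ?_
      intro y hy z hz hyz
      have hy' := (Finset.mem_filter.1 hy).2
      have hz' := (Finset.mem_filter.1 hz).2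
      rw [hy', hz', hyz]
    rwa [card_univ, Fintype.card_fin] at this
  have hB : (S.filter fun y => ¬ y = root (c y)).card ≤ k * N.card := by
    have hmaps : ∀ y ∈ S.filter (fun y => ¬ y = root (c y)), par (c y) y ∈ N := by
      intro y hy
      obtain ⟨hyS, hyr⟩ := Finset.mem_filter.1 hy
      refine hN _ y hyS ?_
      have hyc : y ∈ univ.filter (fun x => c x = c y) := by simp
      exact h5 (c y) _ (h2 (c y) y hyc hyr) y hyc (Relation.TransGen.single ⟨hyr, rfl⟩)
    rw [Finset.card_eq_sum_card_fiberwise hmaps, mul_comm, ← smul_eq_mul, ← Finset.sum_const]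
    refine Finset.sum_le_sum fun x hx => ?_
    refine le_trans (Finset.card_le_card ?_) (h4 (c x) x (by simp))
    intro y hy
    obtain ⟨hy1, hy2⟩ := Finset.mem_filter.1 hy
    obtain ⟨_, hyr⟩ := Finset.mem_filter.1 hy1
    have hyc : y ∈ univ.filter (fun x => c x = c y) := by simp
    have h6 := h2 (c y) y hyc hyr
    rw [hy2, Finset.mem_filter] at h6
    have h7 : c x = c y := h6.2
    rw [Finset.mem_filter, Finset.mem_filter]
    refine ⟨⟨mem_univ _, h7.symm⟩, ?_, ?_⟩
    · rw [h7]; exact hyr
    · rw [h7]; exact hy2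
  omega

end defs

section upper
variable {n : ℕ}

theorem chains_of_assignment (r : Fin n → Fin n → Prop) (hlt : ∀ i j, r i j → i < j)
    (htr : ∀ i j l, r i j → r j l → r i l) (k D : ℕ)
    (g : Fin n → (Fin n × Fin k) ⊕ Fin D) (hg : Function.Injective g)
    (hgr : ∀ y x c, g y = Sum.inl (x, c) → r x y) : kWidth r k ≤ D := by
  classical
  set p : Fin n → Fin n := fun y => Sum.elim (fun q => q.1) (fun _ => y) (g y) with hp
  have hpl : ∀ y x c, g y = Sum.inl (x, c) → p y = x := by
    intro y x c h
    simp only [hp, h, Sum.elim_inl]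
  have hpr : ∀ y d, g y = Sum.inr d → p y = y := by
    intro y d h
    simp only [hp, h, Sum.elim_inr]
  set isRoot : Fin n → Prop := fun y => ∃ d, g y = Sum.inr d with hroot
  have hnr : ∀ y, ¬ isRoot y → ∃ c, g y = Sum.inl (p y, c) := by
    intro y hy
    rcases hgy : g y with ⟨x, c⟩ | d
    · exact ⟨c, by rw [hpl y x c hgy]⟩
    · exact absurd ⟨d, hgy⟩ hy
  have hnrr : ∀ y, ¬ isRoot y → r (p y) y := by
    intro y hy
    obtain ⟨c, hc⟩ := hnr y hy
    exact hgr y _ c hc
  have hfix : ∀ y, isRoot y → p y = y := fun y ⟨d, hd⟩ => hpr y d hd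
  have hfixn : ∀ (m : ℕ) y, isRoot y → p^[m] y = y := by
    intro m y hy
    exact Function.iterate_fixed (hfix y hy) m
  have hdec : ∀ (m : ℕ) y, isRoot (p^[m] y) ∨ (p^[m] y).val + m ≤ y.val := by
    intro m
    induction m with
    | zero => intro y; right; simp
    | succ m ih =>
      intro y
      rcases ih y with h | h
      · left
        rw [Function.iterate_succ_apply', hfix _ h]
        exact h
      · by_cases hr : isRoot (p^[m] y)
        · left
          rw [Function.iterate_succ_apply', hfix _ hr]
          exact hr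
        · right
          rw [Function.iterate_succ_apply']
          have := hlt _ _ (hnrr _ hr)
          have h2 : (p (p^[m] y)).val < (p^[m] y).val := this
          omega
  have hrt : ∀ y, isRoot (p^[n] y) := by
    intro y
    rcases hdec n y with h | h
    · exact h
    · have := y.isLt
      omega
  have hpp : ∀ y, p^[n] (p y) = p^[n] y := by
    intro y
    rw [← Function.iterate_succ_apply, Function.iterate_succ_apply', hfix _ (hrt y)]
  set Rt : Finset (Fin n) := univ.filter isRoot with hRt
  have hcard : Rt.card ≤ D := by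
    have h1 : ∀ y ∈ Rt, ∃ d, g y = Sum.inr d := fun y hy => (Finset.mem_filter.1 hy).2
    rcases Rt.eq_empty_or_nonempty with he | ⟨y0, hy0⟩
    · rw [he]; simp
    have : Nonempty (Fin D) := ⟨(h1 y0 hy0).choose⟩
    choose! d hd using h1
    have : Rt.card ≤ (univ : Finset (Fin D)).card := by
      refine Finset.card_le_card_of_injOn d (fun _ _ => mem_univ _) ?_
      intro y hy z hz hyz
      refine hg ?_
      rw [hd y hy, hd z hz, hyz]
    rwa [card_univ, Fintype.card_fin] at this
  refine le_trans (Nat.sInf_le ?_) hcard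
  refine ⟨fun y => Rt.equivFin ⟨p^[n] y, Finset.mem_filter.2 ⟨mem_univ _, hrt y⟩⟩, fun i => ?_⟩
  set ρ : Fin n := (Rt.equivFin.symm i).val with hρ
  have hρr : isRoot ρ := (Finset.mem_filter.1 (Rt.equivFin.symm i).property).2
  have hmem : ∀ y, y ∈ (univ.filter fun x => Rt.equivFin ⟨p^[n] x, Finset.mem_filter.2 ⟨mem_univ _, hrt x⟩⟩ = i) ↔
      p^[n] y = ρ := by
    intro y
    rw [Finset.mem_filter]
    constructor
    · rintro ⟨_, h⟩
      rw [hρ, ← h, Equiv.symm_apply_apply]
    · intro h
      refine ⟨mem_univ _, ?_⟩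
      rw [← Equiv.eq_symm_apply]
      exact Subtype.ext h
  have hnroot : ∀ y, p^[n] y = ρ → y ≠ ρ → ¬ isRoot y := by
    intro y hy hne hr
    rw [hfixn n y hr] at hy
    exact hne hy
  refine ⟨ρ, p, ?_, ?_, ?_, ?_, ?_⟩
  · rw [hmem]; exact hfixn n ρ hρr
  · intro x hx _
    rw [hmem] at hx ⊢
    rw [hpp]; exact hx
  · intro x hx
    rw [hmem] at hx
    induction x using WellFoundedLT.induction with
    | ind x ih =>
      by_cases hxρ : x = ρ
      · rw [hxρ]
      · have hr := hnroot x hx hxρ
        exact Relation.ReflTransGen.head ⟨hxρ, rfl⟩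
          (ih (p x) (hlt _ _ (hnrr x hr)) (by rw [hpp]; exact hx))
  · intro x _
    have h1 : ∀ y ∈ ((univ.filter fun x => Rt.equivFin ⟨p^[n] x, Finset.mem_filter.2 ⟨mem_univ _, hrt x⟩⟩ = i).filter
        fun y => y ≠ ρ ∧ p y = x), ∃ c, g y = Sum.inl (x, c) := by
      intro y hy
      obtain ⟨hy1, hy2, hy3⟩ := Finset.mem_filter.1 hy
      rw [hmem] at hy1
      obtain ⟨c, hc⟩ := hnr y (hnroot y hy1 hy2)
      exact ⟨c, by rw [hc, hy3]⟩
    have h2 : ((univ.filter fun x => Rt.equivFin ⟨p^[n] x, Finset.mem_filter.2 ⟨mem_univ _, hrt x⟩⟩ = i).filter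
        fun y => y ≠ ρ ∧ p y = x).card ≤ (univ : Finset (Fin k)).card := by
      classical
      rcases Nat.eq_zero_or_pos k with hk | hk
      · have : ((univ.filter fun x => Rt.equivFin ⟨p^[n] x, Finset.mem_filter.2 ⟨mem_univ _, hrt x⟩⟩ = i).filter
            fun y => y ≠ ρ ∧ p y = x) = ∅ := by
          rw [Finset.eq_empty_iff_forall_notMem]
          intro y hy
          obtain ⟨c, _⟩ := h1 y hy
          have := c.isLt
          omega
        rw [this]
        simp
      · have : Nonempty (Fin k) := ⟨⟨0, hk⟩⟩
        choose! c hc using h1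
        refine Finset.card_le_card_of_injOn c (fun _ _ => mem_univ _) ?_
        intro y hy z hz hyz
        refine hg ?_
        rw [hc y hy, hc z hz, hyz]
    rwa [card_univ, Fintype.card_fin] at h2
  · intro x hx y hy hyx
    clear hx
    rw [hmem] at hy
    have key : p^[n] x = ρ ∧ r x y := by
      induction hyx with
      | single h =>
        obtain ⟨h1, h2⟩ := h
        subst h2
        exact ⟨by rw [hpp]; exact hy, hnrr y (hnroot y hy h1)⟩
      | tail _ h ih =>
        obtain ⟨h1, h2⟩ := h
        obtain ⟨i1, i2⟩ := ih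
        subst h2
        exact ⟨by rw [hpp]; exact i1, htr _ _ _ (hnrr _ (hnroot _ i1 h1)) i2⟩
    exact key.2

open Classical in
/-- upper bound by Hall's theorem -/
theorem kWidth_le (r : Fin n → Fin n → Prop) (hlt : ∀ i j, r i j → i < j)
    (htr : ∀ i j l, r i j → r j l → r i l) (k D : ℕ)
    (h : ∀ S : Finset (Fin n), S.card ≤ k * (univ.filter fun x => ∃ y ∈ S, r x y).card + D) :
    kWidth r k ≤ D := by
  set t : Fin n → Finset ((Fin n × Fin k) ⊕ Fin D) := fun y =>
    ((univ.filter fun x => r x y) ×ˢ (univ : Finset (Fin k))).disjSum (univ : Finset (Fin D)) with ht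
  have hall : ∀ s : Finset (Fin n), s.card ≤ (s.biUnion t).card := by
    intro s
    rcases s.eq_empty_or_nonempty with rfl | ⟨y0, hy0⟩
    · simp
    · refine (h s).trans ?_
      have hsub : ((univ.filter fun x => ∃ y ∈ s, r x y) ×ˢ (univ : Finset (Fin k))).disjSum
          (univ : Finset (Fin D)) ⊆ s.biUnion t := by
        intro z hz
        rw [Finset.mem_biUnion]
        rcases z with ⟨x, c⟩ | d
        · rw [Finset.inl_mem_disjSum, Finset.mem_product, Finset.mem_filter] at hz
          obtain ⟨⟨_, y, hy, hxy⟩, _⟩ := hz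
          refine ⟨y, hy, ?_⟩
          rw [ht]
          simp only [Finset.inl_mem_disjSum, Finset.mem_product, Finset.mem_filter, mem_univ, true_and,
            and_true]
          exact hxy
        · refine ⟨y0, hy0, ?_⟩
          rw [ht]
          simp only [Finset.inr_mem_disjSum, mem_univ]
      have hc := Finset.card_le_card hsub
      rw [Finset.card_disjSum, Finset.card_product, card_univ, card_univ, Fintype.card_fin,
        Fintype.card_fin] at hc
      rw [mul_comm k]
      exact hc
  obtain ⟨g, hg, hgt⟩ := (Finset.all_card_le_biUnion_card_iff_exists_injective t).1 hall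
  refine chains_of_assignment r hlt htr k D g hg ?_
  intro y x c hyx
  have := hgt y
  rw [hyx, ht] at this
  simp only [Finset.inl_mem_disjSum, Finset.mem_product, Finset.mem_filter, mem_univ, true_and,
    and_true] at this
  exact this

theorem singletons_mem (r : Fin n → Fin n → Prop) (k : ℕ) :
    n ∈ {m : ℕ | ∃ c : Fin n → Fin m, ∀ i, IsKaryChain r k (univ.filter fun x => c x = i)} := by
    refine ⟨fun x => x, fun i => ⟨i, id, by simp, ?_, ?_, ?_, ?_⟩⟩
    · intro x hx hxi
      simp only [Finset.mem_filter, mem_univ, true_and] at hx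
      exact absurd hx hxi
    · intro x hx
      simp only [Finset.mem_filter, mem_univ, true_and] at hx
      rw [hx]
    · intro x _
      have : ((univ.filter fun x : Fin n => x = i).filter fun y => y ≠ i ∧ id y = x) = ∅ := by
        rw [Finset.eq_empty_iff_forall_notMem]
        intro y hy
        simp only [Finset.mem_filter, mem_univ, true_and] at hy
        exact hy.2.1 hy.1
      rw [this]
      simp
    · intro x hx y hy hyx
      simp only [Finset.mem_filter, mem_univ, true_and] at hx hy
      exfalso
      rw [Relation.TransGen.head'_iff] at hyx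
      obtain ⟨z, hz, _⟩ := hyx
      exact hz.1 hy

theorem kWidth_spec (r : Fin n → Fin n → Prop) (k : ℕ) :
    ∃ c : Fin n → Fin (kWidth r k), ∀ i, IsKaryChain r k (univ.filter fun x => c x = i) :=
  Nat.sInf_mem ⟨n, singletons_mem r k⟩

theorem kWidth_le_n (r : Fin n → Fin n → Prop) (k : ℕ) : kWidth r k ≤ n :=
  Nat.sInf_le (singletons_mem r k)

theorem kWidth_mono {r r' : Fin n → Fin n → Prop} (h : ∀ x y, r x y → r' x y) (k : ℕ) :
    kWidth r' k ≤ kWidth r k := by
  obtain ⟨c, hc⟩ := kWidth_spec r k
  exact Nat.sInf_le ⟨c, fun i => (hc i).mono h⟩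

theorem le_kWidth (r : Fin n → Fin n → Prop) (k : ℕ) (S N : Finset (Fin n))
    (hN : ∀ x y, y ∈ S → r x y → x ∈ N) : S.card ≤ kWidth r k + k * N.card := by
  obtain ⟨c, hc⟩ := kWidth_spec r k
  exact class_bound r k _ c hc S N hN

end upper

end Pool.Agent.X145.KW
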