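import Pool.Agent.X145.KW.Comb

set_option autoImplicit false
open Finset

namespace Pool.Agent.X145.KW

variable {n : ℕ}

/-- block sizes -/
def cN (n q l : ℕ) : ℕ := (univ.filter fun i : Fin n => i.val / q = l).card

open Classical in
/-- number of `i` in block `l` with `a i ≤ t` -/
noncomputable def cA (a : Fin n → ℝ) (q l : ℕ) (t : ℝ) : ℕ :=
  (univ.filter fun i : Fin n => i.val / q = l ∧ a i ≤ t).card

/-- the error term -/
noncomputable def err (a b : Fin n → ℝ) (k q M : ℕ) : ℝ :=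
  ∑ l ∈ range (n / q + 1), ∑ m ∈ range (M + 1),
    (|(cA a q l ((m : ℝ) / M) : ℝ) - cN n q l * (2 * ((m : ℝ) / M) - ((m : ℝ) / M) ^ 2)| +
      k * |(cA b q l ((m : ℝ) / M) : ℝ) - cN n q l * ((m : ℝ) / M) ^ 2|)

theorem sum_cN (q : ℕ) : ∑ l ∈ range (n / q + 1), cN n q l = n := by
  have h := Finset.card_eq_sum_card_fiberwise (f := fun i : Fin n => i.val / q)
    (s := (univ : Finset (Fin n))) (t := range (n / q + 1)) (fun i _ => by
      simp only [Finset.coe_range, Set.mem_Iio]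
      exact Nat.lt_succ_of_le (Nat.div_le_div_right i.isLt.le))
  rw [card_univ, Fintype.card_fin] at h
  exact h.symm

theorem cN_le (q l : ℕ) (hq : 0 < q) : cN n q l ≤ q := by
  unfold cN
  have h : (univ.filter fun i : Fin n => i.val / q = l).card ≤ (Finset.Ico (l * q) (l * q + q)).card := by
    refine Finset.card_le_card_of_injOn (fun i => i.val) ?_ (fun i _ j _ h => Fin.ext h)
    intro i hi
    have hi' : i.val / q = l := (Finset.mem_filter.1 hi).2
    simp only [Finset.coe_Ico, Set.mem_Ico]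
    have h1 := Nat.div_add_mod i.val q
    have h2 := Nat.mod_lt i.val hq
    rw [hi'] at h1
    have e : l * q = q * l := Nat.mul_comm _ _
    rw [e]
    constructor <;> omega
  simpa using h

open Classical in
theorem S_bound (a b : Fin n → ℝ) (ha1 : ∀ i, a i ≤ 1) (k q M : ℕ) (hq : 0 < q) (hM : 0 < M)
    (S : Finset (Fin n)) :
    (S.card : ℝ) ≤ k * ((univ.filter fun x => ∃ y ∈ S, x < y ∧ b x ≤ a y).card : ℝ) +
      (n / (k + 1 : ℝ) + 2 * k * n / M + 2 * k * q + err a b k q M) := by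
  have hMr : (0 : ℝ) < M := by exact_mod_cast hM
  have hkr : (0 : ℝ) ≤ k := by positivity
  set N := univ.filter fun x => ∃ y ∈ S, x < y ∧ b x ≤ a y with hN
  set Uset : ℕ → Set ℕ := fun l => {m : ℕ | ∀ j ∈ S, l ≤ j.val / q → a j ≤ (m : ℝ) / M} with hUset
  have hUM : ∀ l, M ∈ Uset l := fun l j _ _ => by
    rw [div_self hMr.ne']; exact ha1 j
  set U : ℕ → ℕ := fun l => sInf (Uset l) with hU
  have hUle : ∀ l, U l ≤ M := fun l => Nat.sInf_le (hUM l)
  have hUmem : ∀ l, U l ∈ Uset l := fun l => Nat.sInf_mem ⟨M, hUM l⟩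
  have hUanti : ∀ l, U (l + 1) ≤ U l := fun l =>
    Nat.sInf_le (fun j hj hlj => hUmem l j hj (by omega))
  have hUpos : ∀ l m, U l = m + 1 → ∃ j ∈ S, l ≤ j.val / q ∧ (m : ℝ) / M < a j := by
    intro l m hlm
    have h1 : m ∉ Uset l := Nat.notMem_of_lt_sInf (by show m < U l; omega)
    simp only [hUset, Set.mem_ofPred_eq, not_forall, not_le] at h1
    obtain ⟨j, hj1, hj2, hj3⟩ := h1
    exact ⟨j, hj1, hj2, hj3⟩
  -- decomposition into blocks
  have hmaps : ∀ T : Finset (Fin n), Set.MapsTo (fun i : Fin n => i.val / q) (T : Set (Fin n))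
      (range (n / q + 1) : Set ℕ) := fun T i _ => by
    simp only [Finset.coe_range, Set.mem_Iio]
    exact Nat.lt_succ_of_le (Nat.div_le_div_right i.isLt.le)
  have hS : (S.card : ℝ) = ∑ l ∈ range (n / q + 1), ((S.filter fun i => i.val / q = l).card : ℝ) := by
    rw [Finset.card_eq_sum_card_fiberwise (hmaps S)]
    push_cast
    rfl
  have hNc : (N.card : ℝ) = ∑ l ∈ range (n / q + 1), ((N.filter fun i => i.val / q = l).card : ℝ) := by
    rw [Finset.card_eq_sum_card_fiberwise (hmaps N)]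
    push_cast
    rfl
  set X : ℕ → ℕ → ℝ := fun l m =>
    |(cA a q l ((m : ℝ) / M) : ℝ) - cN n q l * (2 * ((m : ℝ) / M) - ((m : ℝ) / M) ^ 2)| +
      k * |(cA b q l ((m : ℝ) / M) : ℝ) - cN n q l * ((m : ℝ) / M) ^ 2| with hX
  have hX1 : ∀ l m, (cA a q l ((m : ℝ) / M) : ℝ) ≤
      cN n q l * (2 * ((m : ℝ) / M) - ((m : ℝ) / M) ^ 2) +
      |(cA a q l ((m : ℝ) / M) : ℝ) - cN n q l * (2 * ((m : ℝ) / M) - ((m : ℝ) / M) ^ 2)| := fun l m => by
    have := le_abs_self ((cA a q l ((m : ℝ) / M) : ℝ) - cN n q l * (2 * ((m : ℝ) / M) - ((m : ℝ) / M) ^ 2))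
    linarith
  have hY1 : ∀ l m, (cN n q l : ℝ) * ((m : ℝ) / M) ^ 2 ≤ (cA b q l ((m : ℝ) / M) : ℝ) +
      |(cA b q l ((m : ℝ) / M) : ℝ) - cN n q l * ((m : ℝ) / M) ^ 2| := fun l m => by
    have := neg_abs_le ((cA b q l ((m : ℝ) / M) : ℝ) - cN n q l * ((m : ℝ) / M) ^ 2)
    linarith
  have hXs : ∀ l, ∀ m, m ≤ M → |(cA a q l ((m : ℝ) / M) : ℝ) - cN n q l * (2 * ((m : ℝ) / M) - ((m : ℝ) / M) ^ 2)| ≤
      ∑ m ∈ range (M + 1), |(cA a q l ((m : ℝ) / M) : ℝ) - cN n q l * (2 * ((m : ℝ) / M) - ((m : ℝ) / M) ^ 2)| :=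
    fun l m hm => Finset.single_le_sum (f := fun m : ℕ => |(cA a q l ((m : ℝ) / M) : ℝ) -
      cN n q l * (2 * ((m : ℝ) / M) - ((m : ℝ) / M) ^ 2)|) (fun _ _ => abs_nonneg _)
      (Finset.mem_range.2 (by omega))
  have hYs : ∀ l, ∀ m, m ≤ M → |(cA b q l ((m : ℝ) / M) : ℝ) - cN n q l * ((m : ℝ) / M) ^ 2| ≤
      ∑ m ∈ range (M + 1), |(cA b q l ((m : ℝ) / M) : ℝ) - cN n q l * ((m : ℝ) / M) ^ 2| :=
    fun l m hm => Finset.single_le_sum (f := fun m : ℕ => |(cA b q l ((m : ℝ) / M) : ℝ) -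
      cN n q l * ((m : ℝ) / M) ^ 2|) (fun _ _ => abs_nonneg _)
      (Finset.mem_range.2 (by omega))
  -- per-block inequality
  have hblock : ∀ l ∈ range (n / q + 1), ((S.filter fun i => i.val / q = l).card : ℝ) ≤
      k * ((N.filter fun i => i.val / q = l).card : ℝ) +
      (cN n q l * (1 / (k + 1 : ℝ) + 2 * k / M) + 2 * k * q * ((U l : ℝ) / M - (U (l + 1) : ℝ) / M) +
        ∑ m ∈ range (M + 1), X l m) := by
    intro l _
    have h1 : ((S.filter fun i => i.val / q = l).card : ℝ) ≤ cA a q l ((U l : ℝ) / M) := by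
      unfold cA
      exact_mod_cast Finset.card_le_card (fun i hi => by
        obtain ⟨hi1, hi2⟩ := Finset.mem_filter.1 hi
        exact Finset.mem_filter.2 ⟨mem_univ _, hi2, hUmem l i hi1 hi2.ge⟩)
    have h2 : (cN n q l : ℝ) * ((U (l + 1) : ℝ) / M) ^ 2 ≤ ((N.filter fun i => i.val / q = l).card : ℝ) +
        ∑ m ∈ range (M + 1), |(cA b q l ((m : ℝ) / M) : ℝ) - cN n q l * ((m : ℝ) / M) ^ 2| +
        cN n q l * (2 / M) := by
      have hs0 : 0 ≤ ∑ m ∈ range (M + 1), |(cA b q l ((m : ℝ) / M) : ℝ) - cN n q l * ((m : ℝ) / M) ^ 2| :=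
        Finset.sum_nonneg fun _ _ => abs_nonneg _
      have hc0 : (0 : ℝ) ≤ cN n q l := by positivity
      have hn0 : (0 : ℝ) ≤ ((N.filter fun i => i.val / q = l).card : ℝ) := by positivity
      rcases Nat.eq_zero_or_pos (U (l + 1)) with h0 | h0
      · rw [h0]
        have : (0 : ℝ) ≤ cN n q l * (2 / M) := by positivity
        simp only [Nat.cast_zero, zero_div, ne_eq, OfNat.ofNat_ne_zero, not_false_eq_true, zero_pow,
          mul_zero]
        linarith
      · obtain ⟨m, hm⟩ : ∃ m, U (l + 1) = m + 1 := ⟨U (l + 1) - 1, by omega⟩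
        have hmM : m ≤ M := by have := hUle (l + 1); omega
        obtain ⟨j, hj1, hj2, hj3⟩ := hUpos (l + 1) m hm
        have h3 : (cA b q l ((m : ℝ) / M) : ℝ) ≤ ((N.filter fun i => i.val / q = l).card : ℝ) := by
          unfold cA
          exact_mod_cast Finset.card_le_card (fun i hi => by
            obtain ⟨_, hi1, hi2⟩ := Finset.mem_filter.1 hi
            refine Finset.mem_filter.2 ⟨Finset.mem_filter.2 ⟨mem_univ _, j, hj1, ?_, hi2.trans hj3.le⟩, hi1⟩
            by_contra hcon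
            push Not at hcon
            have h4 : j.val / q ≤ i.val / q := Nat.div_le_div_right hcon
            omega)
        have h4 := hY1 l m
        have h5 := hYs l m hmM
        have h6 : ((U (l + 1) : ℝ) / M) ^ 2 ≤ ((m : ℝ) / M) ^ 2 + 2 / M := by
          rw [hm]
          push_cast
          have hmM' : (m : ℝ) + 1 ≤ M := by
            have := hUle (l + 1)
            rw [hm] at this
            exact_mod_cast this
          rw [div_pow, div_pow, div_add_div _ _ (by positivity) hMr.ne', div_le_div_iff₀ (by positivity) (by positivity)]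
          have h7 : ((m : ℝ) + 1) ^ 2 ≤ (m : ℝ) ^ 2 + 2 * M := by nlinarith
          have h8 := mul_le_mul_of_nonneg_right h7 (by positivity : (0 : ℝ) ≤ (M : ℝ) ^ 2 * M)
          nlinarith
        have h7 := mul_le_mul_of_nonneg_left h6 hc0
        rw [mul_add] at h7
        linarith
    have h3 := hX1 l (U l)
    have h4 := hXs l (U l) (hUle l)
    have hu0 : (0 : ℝ) ≤ (U l : ℝ) / M := by positivity
    have hu1 : (U l : ℝ) / M ≤ 1 := by
      rw [div_le_one hMr]; exact_mod_cast hUle l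
    have hv0 : (0 : ℝ) ≤ (U (l + 1) : ℝ) / M := by positivity
    have huv : (U (l + 1) : ℝ) / M ≤ (U l : ℝ) / M :=
      div_le_div_of_nonneg_right (by exact_mod_cast hUanti l) hMr.le
    have hcq : (cN n q l : ℝ) ≤ q := by exact_mod_cast cN_le q l hq
    have hc0 : (0 : ℝ) ≤ cN n q l := by positivity
    set u : ℝ := (U l : ℝ) / M with hu
    set v : ℝ := (U (l + 1) : ℝ) / M with hv
    have hmax : 2 * u - (k + 1) * u ^ 2 ≤ 1 / (k + 1 : ℝ) := by
      rw [le_div_iff₀ (by positivity)]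
      nlinarith [sq_nonneg ((k + 1 : ℝ) * u - 1)]
    have hdiff : (k : ℝ) * (u ^ 2 - v ^ 2) ≤ 2 * k * (u - v) := by
      have : u ^ 2 - v ^ 2 ≤ 2 * (u - v) := by nlinarith
      nlinarith
    have hXsum : ∑ m ∈ range (M + 1), X l m =
        ∑ m ∈ range (M + 1), |(cA a q l ((m : ℝ) / M) : ℝ) - cN n q l * (2 * ((m : ℝ) / M) - ((m : ℝ) / M) ^ 2)| +
        k * ∑ m ∈ range (M + 1), |(cA b q l ((m : ℝ) / M) : ℝ) - cN n q l * ((m : ℝ) / M) ^ 2| := by
      rw [Finset.mul_sum, ← Finset.sum_add_distrib]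
    rw [hXsum]
    have h5 := mul_le_mul_of_nonneg_left h2 hkr
    have h6 : (cN n q l : ℝ) * (2 * u - u ^ 2) ≤ cN n q l * (1 / (k + 1 : ℝ)) +
        k * (cN n q l * v ^ 2) + 2 * k * q * (u - v) := by
      have e1 : (cN n q l : ℝ) * (2 * u - u ^ 2) = cN n q l * (2 * u - (k + 1) * u ^ 2) +
          cN n q l * (k * (u ^ 2 - v ^ 2)) + k * (cN n q l * v ^ 2) := by ring
      rw [e1]
      have e2 := mul_le_mul_of_nonneg_left hmax hc0
      have e3 := mul_le_mul_of_nonneg_left hdiff hc0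
      have e4 : (cN n q l : ℝ) * (2 * k * (u - v)) ≤ q * (2 * k * (u - v)) :=
        mul_le_mul_of_nonneg_right hcq (mul_nonneg (by positivity) (by linarith))
      linarith
    have e5 : (k : ℝ) * (cN n q l * (2 / M)) = cN n q l * (2 * k / M) := by ring
    linarith
  have hsum := Finset.sum_le_sum hblock
  rw [← hS, Finset.sum_add_distrib, Finset.sum_add_distrib, Finset.sum_add_distrib, ← Finset.mul_sum,
    ← hNc, ← Finset.sum_mul, ← Finset.mul_sum] at hsum
  have hcN : ∑ l ∈ range (n / q + 1), (cN n q l : ℝ) = n := by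
    exact_mod_cast sum_cN (n := n) q
  have htel : ∑ l ∈ range (n / q + 1), ((U l : ℝ) / M - (U (l + 1) : ℝ) / M) ≤ 1 := by
    rw [Finset.sum_range_sub' (fun l => (U l : ℝ) / M)]
    have h1 : (U 0 : ℝ) / M ≤ 1 := by
      rw [div_le_one hMr]; exact_mod_cast hUle 0
    have h2 : (0 : ℝ) ≤ (U (n / q + 1) : ℝ) / M := by positivity
    linarith
  rw [hcN] at hsum
  have htel2 := mul_le_mul_of_nonneg_left htel (by positivity : (0 : ℝ) ≤ 2 * k * q)
  have herr : err a b k q M = ∑ l ∈ range (n / q + 1), ∑ m ∈ range (M + 1), X l m := rfl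
  rw [herr]
  have e6 : (n : ℝ) * (1 / (k + 1 : ℝ) + 2 * k / M) = n / (k + 1 : ℝ) + 2 * k * n / M := by ring
  linarith

theorem det_bound (a b : Fin n → ℝ) (hab : ∀ i, a i ≤ b i) (ha1 : ∀ i, a i ≤ 1)
    (k q M : ℕ) (hq : 0 < q) (hM : 0 < M) :
    (kWidth (fun i j : Fin n => i < j ∧ b i ≤ a j) k : ℝ) ≤
      n / (k + 1 : ℝ) + 2 * k * n / M + 2 * k * q + err a b k q M + 1 := by
  classical
  set E := n / (k + 1 : ℝ) + 2 * k * n / M + 2 * k * q + err a b k q M with hE
  have herr0 : 0 ≤ err a b k q M := by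
    unfold err
    exact Finset.sum_nonneg fun _ _ => Finset.sum_nonneg fun _ _ => by positivity
  have hE0 : 0 ≤ E := by positivity
  have h1 : kWidth (fun i j : Fin n => i < j ∧ b i ≤ a j) k ≤ ⌈E⌉₊ := by
    refine kWidth_le _ (fun i j h => h.1)
      (fun i j l h h' => ⟨h.1.trans h'.1, h.2.trans ((hab j).trans h'.2)⟩) k _ ?_
    intro S
    have h := S_bound a b ha1 k q M hq hM S
    rw [← hE] at h
    have h2 : (S.card : ℝ) ≤ k * ((univ.filter fun x => ∃ y ∈ S, x < y ∧ b x ≤ a y).card : ℝ) + (⌈E⌉₊ : ℕ) :=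
      h.trans (by have := Nat.le_ceil E; linarith)
    have h3 : S.card ≤ k * (univ.filter fun x => ∃ y ∈ S, x < y ∧ b x ≤ a y).card + ⌈E⌉₊ := by
      exact_mod_cast h2
    convert h3
  have h2 : ((⌈E⌉₊ : ℕ) : ℝ) < E + 1 := Nat.ceil_lt_add_one hE0
  have h3 : (kWidth (fun i j : Fin n => i < j ∧ b i ≤ a j) k : ℝ) ≤ (⌈E⌉₊ : ℕ) := by exact_mod_cast h1
  linarith

end Pool.Agent.X145.KW
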