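import Pool.Agent.X145.KW.Prob

set_option autoImplicit false
open Finset MeasureTheory ProbabilityTheory Filter Topology
open scoped ENNReal

namespace Pool.Agent.X145.KW

/-- The poset of a sequence of intervals: `i ≺ j` iff `i < j` and interval `i` lies wholly to the
left of interval `j`. -/
def seqRel {n : ℕ} (w : Om n) (i j : Fin n) : Prop := i < j ∧ rgt w i ≤ lft w j

/-- The poset of a set of intervals: `i < j` iff interval `i` lies wholly to the left of `j`. -/
def setRel {n : ℕ} (w : Om n) (i j : Fin n) : Prop := i ≠ j ∧ rgt w i ≤ lft w j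

/-- Expected `k`-width of a sequence of `n` independent random intervals. -/
noncomputable def meanSeq (k n : ℕ) : ℝ := ∫ w, (kWidth (seqRel w) k : ℝ) ∂(law n)

/-- Expected `k`-width of a set of `n` independent random intervals. -/
noncomputable def meanSet (k n : ℕ) : ℝ := ∫ w, (kWidth (setRel w) k : ℝ) ∂(law n)

theorem meas_lft {n : ℕ} (i : Fin n) : Measurable fun w : Om n => lft w i := by
  unfold lft
  have h := measurable_pi_apply (X := fun _ : Fin n => ℝ × ℝ) i
  exact (measurable_fst.comp h).min (measurable_snd.comp h)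

theorem meas_rgt {n : ℕ} (i : Fin n) : Measurable fun w : Om n => rgt w i := by
  unfold rgt
  have h := measurable_pi_apply (X := fun _ : Fin n => ℝ × ℝ) i
  exact (measurable_fst.comp h).max (measurable_snd.comp h)

theorem meas_kW {n : ℕ} (R : Om n → Fin n → Fin n → Prop) (k : ℕ)
    (hR : ∀ i j, MeasurableSet {w | R w i j}) : Measurable fun w => (kWidth (R w) k : ℝ) := by
  classical
  set B : Om n → Fin n → Fin n → Bool := fun w i j => if R w i j then true else false with hB
  have hBm : Measurable B := by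
    refine measurable_pi_lambda _ fun i => measurable_pi_lambda _ fun j => ?_
    exact Measurable.ite (hR i j) measurable_const measurable_const
  have e : (fun w => (kWidth (R w) k : ℝ)) =
      (fun M : Fin n → Fin n → Bool => (kWidth (fun i j => M i j = true) k : ℝ)) ∘ B := by
    funext w
    simp only [Function.comp_apply]
    congr 2
    funext i j
    simp only [hB]
    by_cases h : R w i j <;> simp [h]
  rw [e]
  exact (Measurable.of_discrete).comp hBm

theorem int_kW {n : ℕ} (R : Om n → Fin n → Fin n → Prop) (k : ℕ)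
    (hR : ∀ i j, MeasurableSet {w | R w i j}) : Integrable (fun w => (kWidth (R w) k : ℝ)) (law n) := by
  refine Integrable.of_bound (meas_kW R k hR).aestronglyMeasurable n (Eventually.of_forall fun w => ?_)
  rw [Real.norm_of_nonneg (by positivity)]
  exact_mod_cast kWidth_le_n _ _

theorem seq_meas {n : ℕ} (i j : Fin n) : MeasurableSet {w : Om n | seqRel w i j} := by
  unfold seqRel
  exact (MeasurableSet.const _).inter (measurableSet_le (meas_rgt i) (meas_lft j))

theorem set_meas {n : ℕ} (i j : Fin n) : MeasurableSet {w : Om n | setRel w i j} := by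
  unfold setRel
  exact (MeasurableSet.const _).inter (measurableSet_le (meas_rgt i) (meas_lft j))

theorem mean_le (k n : ℕ) : meanSet k n ≤ meanSeq k n := by
  refine integral_mono (int_kW _ k set_meas) (int_kW _ k seq_meas) fun w => ?_
  simp only
  exact_mod_cast kWidth_mono (r := seqRel w) (r' := setRel w) (fun i j h => ⟨h.1.ne, h.2⟩) k

/-- expectation of the number of indices in a set -/
theorem count_mean (n : ℕ) (s : Set (ℝ × ℝ)) (hs : MeasurableSet s) :
    ∫ w, ∑ i : Fin n, s.indicator (fun _ => (1 : ℝ)) (w i) ∂(law n) = n * unif2.real s := by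
  have hm : AEStronglyMeasurable (s.indicator (fun _ => (1 : ℝ))) unif2 :=
    (measurable_const.indicator hs).aestronglyMeasurable
  rw [integral_finsetSum _ fun i _ => ?_]
  · have : ∀ i : Fin n, ∫ w, s.indicator (fun _ => (1 : ℝ)) (w i) ∂(law n) = unif2.real s := by
      intro i
      unfold law
      rw [integral_comp_eval (μ := fun _ : Fin n => unif2) hm, integral_indicator_const _ hs]
      simp
    rw [Finset.sum_congr rfl fun i _ => this i]
    simp
  · unfold law
    exact integrable_comp_eval (μ := fun _ : Fin n => unif2) ((integrable_const _).indicator hs)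

theorem count_int (n : ℕ) (s : Set (ℝ × ℝ)) (hs : MeasurableSet s) :
    Integrable (fun w : Om n => ∑ i : Fin n, s.indicator (fun _ => (1 : ℝ)) (w i)) (law n) := by
  refine integrable_finsetSum _ fun i _ => ?_
  unfold law
  exact integrable_comp_eval (μ := fun _ : Fin n => unif2) ((integrable_const _).indicator hs)

theorem meas_min (t : ℝ) : MeasurableSet {p : ℝ × ℝ | min p.1 p.2 ≤ t} :=
  measurableSet_le (by fun_prop) measurable_const

theorem meas_max (t : ℝ) : MeasurableSet {p : ℝ × ℝ | max p.1 p.2 ≤ t} :=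
  measurableSet_le (by fun_prop) measurable_const

open Classical in
theorem card_eq {n : ℕ} (B : Finset (Fin n)) (s : Set (ℝ × ℝ)) (w : Om n) :
    ((B.filter fun i => w i ∈ s).card : ℝ) = ∑ i ∈ B, s.indicator (fun _ => (1 : ℝ)) (w i) := by
  rw [Finset.card_eq_sum_ones, Nat.cast_sum, Finset.sum_filter]
  refine Finset.sum_congr rfl fun i _ => ?_
  rw [Set.indicator_apply]
  split_ifs <;> simp

/-- the lower bound, exact for every `n` -/
theorem lower (k n : ℕ) : (n : ℝ) / (k + 1) ≤ meanSet k n := by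
  classical
  set t : ℝ := 1 / ((k : ℝ) + 1) with ht
  have hk : (0 : ℝ) < (k : ℝ) + 1 := by positivity
  have ht0 : 0 ≤ t := by positivity
  have ht1 : t ≤ 1 := by
    rw [ht, div_le_one hk]
    have : (0 : ℝ) ≤ k := by positivity
    linarith
  have hpt : ∀ w : Om n, ∑ i : Fin n, {p : ℝ × ℝ | min p.1 p.2 ≤ t}.indicator (fun _ => (1 : ℝ)) (w i) ≤
      (kWidth (setRel w) k : ℝ) +
        k * ∑ i : Fin n, {p : ℝ × ℝ | max p.1 p.2 ≤ t}.indicator (fun _ => (1 : ℝ)) (w i) := by
    intro w
    rw [← card_eq, ← card_eq]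
    have := le_kWidth (setRel w) k (univ.filter fun i => w i ∈ {p : ℝ × ℝ | min p.1 p.2 ≤ t})
      (univ.filter fun i => w i ∈ {p : ℝ × ℝ | max p.1 p.2 ≤ t}) (by
        intro x y hy hxy
        rw [Finset.mem_filter] at hy ⊢
        refine ⟨mem_univ _, ?_⟩
        exact hxy.2.trans hy.2)
    exact_mod_cast this
  have h1 := integral_mono (count_int n _ (meas_min t))
    ((int_kW _ k set_meas).add ((count_int n _ (meas_max t)).const_mul k)) hpt
  have h2 : ∫ w, ((kWidth (setRel w) k : ℝ) +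
        k * ∑ i : Fin n, {p : ℝ × ℝ | max p.1 p.2 ≤ t}.indicator (fun _ => (1 : ℝ)) (w i)) ∂(law n) =
      meanSet k n + k * (n * t ^ 2) := by
    rw [integral_add (int_kW _ k set_meas) ((count_int n _ (meas_max t)).const_mul k),
      integral_const_mul, count_mean n _ (meas_max t), max_prob t ht0 ht1]
    rfl
  have h3 := h1.trans (le_of_eq h2)
  rw [count_mean n _ (meas_min t), min_prob t ht0 ht1] at h3
  have h4 : (n : ℝ) * (2 * t - t ^ 2) - k * (n * t ^ 2) = n / (k + 1) := by
    rw [ht]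
    field_simp
    ring
  linarith

theorem err_mean (k q M n : ℕ) (hM : 0 < M) (hn : 0 < n) :
    Integrable (fun w : Om n => err (lft w) (rgt w) k q M) (law n) ∧
    ∫ w, err (lft w) (rgt w) k q M ∂(law n) ≤
      ((n / q : ℕ) + 1 : ℝ) * ((M + 1 : ℝ) * ((1 + k) * Real.sqrt n)) := by
  classical
  have hMr : (0 : ℝ) < M := by exact_mod_cast hM
  have hgen : ∀ (s : Set (ℝ × ℝ)) (hs : MeasurableSet s) (B : Finset (Fin n)),
      Integrable (fun w : Om n => |∑ i ∈ B, (s.indicator (fun _ => (1 : ℝ)) (w i) - unif2.real s)|) (law n) := by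
    intro s hs B
    refine Integrable.abs (integrable_finsetSum _ fun i _ => ?_)
    refine Integrable.sub ?_ (integrable_const _)
    unfold law
    exact integrable_comp_eval (μ := fun _ : Fin n => unif2) ((integrable_const _).indicator hs)
  have eA : ∀ (l m : ℕ), m ∈ range (M + 1) → (fun w : Om n => |(cA (lft w) q l ((m : ℝ) / M) : ℝ) - cN n q l * (2 * ((m : ℝ) / M) - ((m : ℝ) / M) ^ 2)|) =
      fun w : Om n => |∑ i ∈ univ.filter (fun i : Fin n => i.val / q = l),
        ({p : ℝ × ℝ | min p.1 p.2 ≤ (m : ℝ) / M}.indicator (fun _ => (1 : ℝ)) (w i) - unif2.real {p : ℝ × ℝ | min p.1 p.2 ≤ (m : ℝ) / M})| := by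
    intro l m hm
    have hm' : (m : ℝ) / M ≤ 1 := by
      rw [div_le_one hMr]
      exact_mod_cast Nat.lt_succ_iff.1 (Finset.mem_range.1 hm)
    funext w
    rw [Finset.sum_sub_distrib, ← card_eq, Finset.sum_const, nsmul_eq_mul,
      min_prob _ (by positivity) hm', Finset.filter_filter]
    rfl
  have eB : ∀ (l m : ℕ), m ∈ range (M + 1) → (fun w : Om n => |(cA (rgt w) q l ((m : ℝ) / M) : ℝ) - cN n q l * ((m : ℝ) / M) ^ 2|) =
      fun w : Om n => |∑ i ∈ univ.filter (fun i : Fin n => i.val / q = l),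
        ({p : ℝ × ℝ | max p.1 p.2 ≤ (m : ℝ) / M}.indicator (fun _ => (1 : ℝ)) (w i) - unif2.real {p : ℝ × ℝ | max p.1 p.2 ≤ (m : ℝ) / M})| := by
    intro l m hm
    have hm' : (m : ℝ) / M ≤ 1 := by
      rw [div_le_one hMr]
      exact_mod_cast Nat.lt_succ_iff.1 (Finset.mem_range.1 hm)
    funext w
    rw [Finset.sum_sub_distrib, ← card_eq, Finset.sum_const, nsmul_eq_mul,
      max_prob _ (by positivity) hm', Finset.filter_filter]
    rfl
  have iA : ∀ (l m : ℕ), m ∈ range (M + 1) → Integrable (fun w : Om n => |(cA (lft w) q l ((m : ℝ) / M) : ℝ) - cN n q l * (2 * ((m : ℝ) / M) - ((m : ℝ) / M) ^ 2)|) (law n) := by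
    intro l m hm
    rw [eA l m hm]
    exact hgen _ (meas_min _) _
  have iB : ∀ (l m : ℕ), m ∈ range (M + 1) → Integrable (fun w : Om n => (k : ℝ) * |(cA (rgt w) q l ((m : ℝ) / M) : ℝ) - cN n q l * ((m : ℝ) / M) ^ 2|) (law n) := by
    intro l m hm
    refine Integrable.const_mul ?_ _
    rw [eB l m hm]
    exact hgen _ (meas_max _) _
  have iAB : ∀ (l m : ℕ), m ∈ range (M + 1) → Integrable (fun w : Om n =>
      |(cA (lft w) q l ((m : ℝ) / M) : ℝ) - cN n q l * (2 * ((m : ℝ) / M) - ((m : ℝ) / M) ^ 2)| +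
      (k : ℝ) * |(cA (rgt w) q l ((m : ℝ) / M) : ℝ) - cN n q l * ((m : ℝ) / M) ^ 2|) (law n) :=
    fun l m hm => (iA l m hm).add (iB l m hm)
  constructor
  · unfold err
    exact integrable_finsetSum _ fun l _ => integrable_finsetSum _ fun m hm => iAB l m hm
  · unfold err
    rw [integral_finsetSum _ fun l _ => integrable_finsetSum _ fun m hm => iAB l m hm]
    have h1 : ∀ l ∈ range (n / q + 1), ∫ w : Om n, ∑ m ∈ range (M + 1),
        (|(cA (lft w) q l ((m : ℝ) / M) : ℝ) - cN n q l * (2 * ((m : ℝ) / M) - ((m : ℝ) / M) ^ 2)| +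
        (k : ℝ) * |(cA (rgt w) q l ((m : ℝ) / M) : ℝ) - cN n q l * ((m : ℝ) / M) ^ 2|) ∂(law n) ≤
        (M + 1 : ℝ) * ((1 + k) * Real.sqrt n) := by
      intro l _
      rw [integral_finsetSum _ fun m hm => iAB l m hm]
      have h2 : ∀ m ∈ range (M + 1), ∫ w : Om n,
          (|(cA (lft w) q l ((m : ℝ) / M) : ℝ) - cN n q l * (2 * ((m : ℝ) / M) - ((m : ℝ) / M) ^ 2)| +
          (k : ℝ) * |(cA (rgt w) q l ((m : ℝ) / M) : ℝ) - cN n q l * ((m : ℝ) / M) ^ 2|) ∂(law n) ≤
          (1 + k) * Real.sqrt n := by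
        intro m hm
        rw [integral_add (iA l m hm) (iB l m hm), integral_const_mul, eA l m hm, eB l m hm]
        have h3 := dev_bound n _ (meas_min ((m : ℝ) / M)) (univ.filter fun i : Fin n => i.val / q = l) hn
        have h4 := dev_bound n _ (meas_max ((m : ℝ) / M)) (univ.filter fun i : Fin n => i.val / q = l) hn
        have h5 := mul_le_mul_of_nonneg_left h4 (by positivity : (0 : ℝ) ≤ k)
        linarith
      refine (Finset.sum_le_sum h2).trans (le_of_eq ?_)
      rw [Finset.sum_const, Finset.card_range, nsmul_eq_mul]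
      push_cast
      ring
    refine (Finset.sum_le_sum h1).trans (le_of_eq ?_)
    rw [Finset.sum_const, Finset.card_range, nsmul_eq_mul]
    push_cast
    ring

theorem upper (k q M n : ℕ) (hq : 0 < q) (hM : 0 < M) (hn : 0 < n) :
    meanSeq k n ≤ n / (k + 1 : ℝ) + 2 * k * n / M + 2 * k * q + 1 +
      ((n / q : ℕ) + 1 : ℝ) * ((M + 1 : ℝ) * ((1 + k) * Real.sqrt n)) := by
  obtain ⟨h1, h2⟩ := err_mean k q M n hM hn
  have hbd : ∀ᵐ w ∂(law n), ∀ i, (w i) ∈ Set.Icc (0 : ℝ) 1 ×ˢ Set.Icc (0 : ℝ) 1 := by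
    rw [ae_all_iff]
    intro i
    have h3 : ∀ᵐ p ∂unif2, p ∈ Set.Icc (0 : ℝ) 1 ×ˢ Set.Icc (0 : ℝ) 1 := by
      unfold unif2
      rw [Measure.prod_restrict]
      exact ae_restrict_mem (measurableSet_Icc.prod measurableSet_Icc)
    have h4 := (measurePreserving_eval (fun _ : Fin n => unif2) i).quasiMeasurePreserving
    exact h4.ae h3
  have h3 : meanSeq k n ≤ ∫ w, (n / (k + 1 : ℝ) + 2 * k * n / M + 2 * k * q + 1 +
      err (lft w) (rgt w) k q M) ∂(law n) := by
    refine integral_mono_ae (int_kW _ k seq_meas) ((integrable_const _).add h1) ?_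
    filter_upwards [hbd] with w hw
    have := det_bound (lft w) (rgt w) (fun i => min_le_max) (fun i => (min_le_left _ _).trans (hw i).1.2)
      k q M hq hM
    refine le_trans this (le_of_eq ?_)
    ring
  rw [integral_add (integrable_const _) h1, integral_const, probReal_univ, one_smul] at h3
  linarith

theorem tendsto_gen (k : ℕ) (f : ℕ → ℝ) (hlo : ∀ n : ℕ, (n : ℝ) / (k + 1) ≤ f n) (hhi : ∀ n, f n ≤ meanSeq k n) :
    Tendsto (fun n : ℕ => f n / n) atTop (𝓝 (1 / ((k : ℝ) + 1))) := by
  rw [tendsto_order]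
  have hk : (0 : ℝ) < (k : ℝ) + 1 := by positivity
  have hlo' : ∀ n : ℕ, 0 < n → 1 / ((k : ℝ) + 1) ≤ f n / n := by
    intro n hn
    have hn' : (0 : ℝ) < n := by exact_mod_cast hn
    rw [le_div_iff₀ hn']
    have := hlo n
    calc 1 / ((k : ℝ) + 1) * n = n / (k + 1) := by ring
      _ ≤ _ := this
  constructor
  · intro x hx
    filter_upwards [eventually_gt_atTop 0] with n hn
    exact lt_of_lt_of_le hx (hlo' n hn)
  · intro x hx
    set δ := x - 1 / ((k : ℝ) + 1) with hδ
    have hδ0 : 0 < δ := by rw [hδ]; linarith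
    obtain ⟨M, hM⟩ := exists_nat_gt (4 * ((4 * (k : ℝ) + 1) / δ))
    have hM0' : 0 < 4 * ((4 * (k : ℝ) + 1) / δ) := by positivity
    have hMr : (0 : ℝ) < M := hM0'.trans hM
    have hM0 : 0 < M := by exact_mod_cast hMr
    have hs : Tendsto (fun n : ℕ => Real.sqrt (n : ℝ)) atTop atTop :=
      Real.tendsto_sqrt_atTop.comp tendsto_natCast_atTop_atTop
    have hn1 : Tendsto (fun n : ℕ => (2 * (k : ℝ) + 1) / n) atTop (𝓝 0) :=
      tendsto_const_div_atTop_nhds_zero_nat _
    have hn2 : Tendsto (fun n : ℕ => ((M + 1 : ℝ) * ((M + 1 : ℝ) * (1 + k))) / Real.sqrt n) atTop (𝓝 0) :=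
      hs.const_div_atTop _
    have hδ4 : 0 < δ / 4 := by positivity
    filter_upwards [eventually_gt_atTop 0, hn1.eventually (gt_mem_nhds hδ4),
      hn2.eventually (gt_mem_nhds hδ4)] with n hn e1 e2
    have hn' : (0 : ℝ) < n := by exact_mod_cast hn
    set q : ℕ := n / M + 1 with hq
    have hq0 : 0 < q := Nat.succ_pos _
    have hq1 : (q : ℝ) ≤ n / M + 1 := by
      rw [hq]
      push_cast
      have := Nat.cast_div_le (α := ℝ) (m := n) (n := M)
      linarith
    have hnq : n / q ≤ M := by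
      have h1 : n < M * q := by
        rw [hq]
        have := Nat.lt_mul_div_succ n hM0
        exact this
      exact (Nat.div_lt_of_lt_mul (by rw [mul_comm]; exact h1)).le
    have hnq' : ((n / q : ℕ) : ℝ) ≤ M := by exact_mod_cast hnq
    have h1 := (hhi n).trans (upper k q M n hq0 hM0 hn)
    have hsq : Real.sqrt n * Real.sqrt n = n := Real.mul_self_sqrt hn'.le
    have hs0 : 0 < Real.sqrt (n : ℝ) := Real.sqrt_pos.2 hn'
    have hk0 : (0 : ℝ) ≤ k := by positivity
    rw [div_lt_iff₀ hn']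
    have t1 : 2 * (k : ℝ) * q ≤ 2 * k * (n / M + 1) := mul_le_mul_of_nonneg_left hq1 (by positivity)
    have t2 : (((n / q : ℕ) : ℝ) + 1) * ((M + 1 : ℝ) * ((1 + k) * Real.sqrt n)) ≤
        (M + 1 : ℝ) * ((M + 1 : ℝ) * ((1 + k) * Real.sqrt n)) :=
      mul_le_mul_of_nonneg_right (by linarith) (by positivity)
    have t3 : (M + 1 : ℝ) * ((M + 1 : ℝ) * ((1 + k) * Real.sqrt n)) < δ / 4 * n := by
      rw [div_lt_iff₀ hs0] at e2
      calc (M + 1 : ℝ) * ((M + 1 : ℝ) * ((1 + k) * Real.sqrt n)) =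
          ((M + 1 : ℝ) * ((M + 1 : ℝ) * (1 + k))) * Real.sqrt n := by ring
        _ < δ / 4 * Real.sqrt n * Real.sqrt n := mul_lt_mul_of_pos_right e2 hs0
        _ = δ / 4 * n := by rw [mul_assoc, hsq]
    have t4 : 2 * (k : ℝ) + 1 < δ / 4 * n := by
      rwa [div_lt_iff₀ hn'] at e1
    have t5 : (4 * (k : ℝ) + 1) / M < δ / 4 := by
      rw [div_lt_iff₀ hMr]
      have h2 : 4 * ((4 * (k : ℝ) + 1) / δ) * δ = 4 * (4 * k + 1) := by field_simp
      have h3 := mul_lt_mul_of_pos_right hM hδ0
      rw [h2] at h3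
      linarith
    have t6 : 4 * (k : ℝ) * (n / M) ≤ δ / 4 * n := by
      have h2 : 4 * (k : ℝ) * (n / M) ≤ (4 * (k : ℝ) + 1) / M * n := by
        have h3 : 4 * (k : ℝ) * (n / M) = 4 * k / M * n := by ring
        rw [h3]
        refine mul_le_mul_of_nonneg_right (div_le_div_of_nonneg_right (by linarith) hMr.le) hn'.le
      exact h2.trans (mul_le_mul_of_nonneg_right t5.le hn'.le)
    have hx' : x * n = n / (k + 1) + δ * n := by
      rw [hδ]
      ring
    rw [hx']
    have t7 : 2 * (k : ℝ) * n / M + 2 * k * (n / M + 1) + 1 = 4 * k * (n / M) + (2 * k + 1) := by ring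
    have : 0 < δ * n := by positivity
    linarith

theorem seq_limit (k : ℕ) :
    Tendsto (fun n : ℕ => meanSeq k n / n) atTop (𝓝 (1 / ((k : ℝ) + 1))) :=
  tendsto_gen k (meanSeq k) (fun n => (lower k n).trans (mean_le k n)) (fun _ => le_rfl)

theorem set_limit (k : ℕ) :
    Tendsto (fun n : ℕ => meanSet k n / n) atTop (𝓝 (1 / ((k : ℝ) + 1))) :=
  tendsto_gen k (meanSet k) (fun n => lower k n) (fun n => mean_le k n)

end Pool.Agent.X145.KW
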