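import Pool.Agent.X145.KW.Det

set_option autoImplicit false
open Finset MeasureTheory ProbabilityTheory Filter Topology
open scoped ENNReal

namespace Pool.Agent.X145.KW

/-- the law of a pair of independent uniform random variables on `(0,1)` -/
noncomputable def unif2 : Measure (ℝ × ℝ) :=
  (volume.restrict (Set.Icc (0 : ℝ) 1)).prod (volume.restrict (Set.Icc (0 : ℝ) 1))

instance : IsProbabilityMeasure (volume.restrict (Set.Icc (0 : ℝ) 1)) :=
  ⟨by rw [Measure.restrict_apply_univ, Real.volume_Icc]; norm_num⟩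

instance : IsProbabilityMeasure unif2 := by unfold unif2; infer_instance

/-- `n` independent random intervals are encoded by `n` independent uniform pairs. -/
abbrev Om (n : ℕ) : Type := Fin n → ℝ × ℝ

/-- their joint law -/
noncomputable def law (n : ℕ) : Measure (Om n) := Measure.pi fun _ => unif2

instance (n : ℕ) : IsProbabilityMeasure (law n) := by unfold law; infer_instance

/-- left endpoint -/
def lft {n : ℕ} (w : Om n) (i : Fin n) : ℝ := min (w i).1 (w i).2
/-- right endpoint -/
def rgt {n : ℕ} (w : Om n) (i : Fin n) : ℝ := max (w i).1 (w i).2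

theorem max_prob (t : ℝ) (h0 : 0 ≤ t) (h1 : t ≤ 1) : unif2.real {p | max p.1 p.2 ≤ t} = t ^ 2 := by
  have e : {p : ℝ × ℝ | max p.1 p.2 ≤ t} = Set.Iic t ×ˢ Set.Iic t := by
    ext p
    simp only [Set.mem_ofPred_eq, max_le_iff, Set.mem_prod, Set.mem_Iic]
  have h2 : (volume.restrict (Set.Icc (0 : ℝ) 1)) (Set.Iic t) = ENNReal.ofReal t := by
    rw [Measure.restrict_apply measurableSet_Iic]
    have : Set.Iic t ∩ Set.Icc 0 1 = Set.Icc 0 t := by
      ext x
      simp only [Set.mem_inter_iff, Set.mem_Iic, Set.mem_Icc]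
      constructor
      · rintro ⟨a, b, c⟩; exact ⟨b, a⟩
      · rintro ⟨a, b⟩; exact ⟨b, a, b.trans h1⟩
    rw [this, Real.volume_Icc, sub_zero]
  unfold unif2
  rw [e, Measure.real, Measure.prod_prod, h2, ENNReal.toReal_mul, ENNReal.toReal_ofReal h0]
  ring

theorem min_prob (t : ℝ) (h0 : 0 ≤ t) (h1 : t ≤ 1) :
    unif2.real {p | min p.1 p.2 ≤ t} = 2 * t - t ^ 2 := by
  have hm : MeasurableSet {p : ℝ × ℝ | min p.1 p.2 ≤ t} :=
    measurableSet_le (by fun_prop) measurable_const
  have e : {p : ℝ × ℝ | min p.1 p.2 ≤ t}ᶜ = Set.Ioi t ×ˢ Set.Ioi t := by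
    ext p
    simp only [Set.mem_compl_iff, Set.mem_ofPred_eq, not_le, lt_min_iff, Set.mem_prod, Set.mem_Ioi]
  have h2 : (volume.restrict (Set.Icc (0 : ℝ) 1)) (Set.Ioi t) = ENNReal.ofReal (1 - t) := by
    rw [Measure.restrict_apply measurableSet_Ioi]
    have : Set.Ioi t ∩ Set.Icc 0 1 = Set.Ioc t 1 := by
      ext x
      simp only [Set.mem_inter_iff, Set.mem_Ioi, Set.mem_Icc, Set.mem_Ioc]
      constructor
      · rintro ⟨a, b, c⟩; exact ⟨a, c⟩
      · rintro ⟨a, b⟩; exact ⟨a, h0.trans a.le, b⟩
    rw [this, Real.volume_Ioc]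
  have h3 : unif2.real {p : ℝ × ℝ | min p.1 p.2 ≤ t}ᶜ = (1 - t) ^ 2 := by
    unfold unif2
    rw [e, Measure.real, Measure.prod_prod, h2, ENNReal.toReal_mul, ENNReal.toReal_ofReal (by linarith)]
    ring
  rw [probReal_compl_eq_one_sub hm] at h3
  linarith

/-- mean absolute deviation -/
theorem dev_bound (n : ℕ) (s : Set (ℝ × ℝ)) (hs : MeasurableSet s) (B : Finset (Fin n)) (hn : 0 < n) :
    ∫ w, |∑ i ∈ B, (s.indicator (fun _ => (1 : ℝ)) (w i) - unif2.real s)| ∂(law n) ≤ Real.sqrt n := by
  classical
  set f : Fin n → ℝ × ℝ → ℝ := fun i p => if i ∈ B then s.indicator (fun _ => (1 : ℝ)) p - unif2.real s else 0 with hf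
  have hfm : ∀ i, Measurable (f i) := by
    intro i
    by_cases hi : i ∈ B
    · simp only [hf, if_pos hi]
      exact (measurable_const.indicator hs).sub_const _
    · simp only [hf, if_neg hi]
      exact measurable_const
  have hp0 : 0 ≤ unif2.real s := measureReal_nonneg
  have hp1 : unif2.real s ≤ 1 := measureReal_le_one
  have hfb : ∀ i p, |f i p| ≤ 1 := by
    intro i p
    by_cases hi : i ∈ B
    · simp only [hf, if_pos hi]
      by_cases hp : p ∈ s
      · rw [Set.indicator_of_mem hp, abs_le]; constructor <;> linarith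
      · rw [Set.indicator_of_notMem hp, abs_le]; constructor <;> linarith
    · simp only [hf, if_neg hi]
      simp
  have hmem : ∀ i, MemLp (f i) 2 unif2 := fun i =>
    MemLp.of_bound (hfm i).aestronglyMeasurable 1 (Eventually.of_forall fun p => by
      rw [Real.norm_eq_abs]; exact hfb i p)
  have hsum : ∀ w : Om n, ∑ i ∈ B, (s.indicator (fun _ => (1 : ℝ)) (w i) - unif2.real s) = ∑ i, f i (w i) := by
    intro w
    simp only [hf]
    rw [Finset.sum_ite_mem, Finset.univ_inter]
  have hmean : ∀ i, ∫ p, f i p ∂unif2 = 0 := by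
    intro i
    by_cases hi : i ∈ B
    · simp only [hf, if_pos hi]
      rw [integral_sub ((integrable_const _).indicator hs) (integrable_const _), integral_indicator_const _ hs,
        integral_const, probReal_univ]
      simp
    · simp only [hf, if_neg hi]
      simp
  set X : Om n → ℝ := fun w => ∑ i, f i (w i) with hX
  have hXm : Measurable X := by
    simp only [hX]
    exact Finset.measurable_sum _ fun i _ => (hfm i).comp (measurable_pi_apply i)
  have hXb : ∀ w, |X w| ≤ n := by
    intro w
    simp only [hX]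
    refine (Finset.abs_sum_le_sum_abs _ _).trans ?_
    calc ∑ i, |f i (w i)| ≤ ∑ _i : Fin n, (1 : ℝ) := Finset.sum_le_sum fun i _ => hfb i _
      _ = n := by simp
  have hXL : MemLp X 2 (law n) := MemLp.of_bound hXm.aestronglyMeasurable n (Eventually.of_forall fun w => by
    rw [Real.norm_eq_abs]; exact hXb w)
  have hXi : Integrable X (law n) := hXL.integrable one_le_two
  have hXmean : ∫ w, X w ∂(law n) = 0 := by
    simp only [hX]
    rw [integral_finsetSum _ fun i _ => ?_]
    · refine Finset.sum_eq_zero fun i _ => ?_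
      unfold law
      rw [integral_comp_eval (μ := fun _ : Fin n => unif2) (hfm i).aestronglyMeasurable]
      exact hmean i
    · unfold law
      exact integrable_comp_eval (μ := fun _ : Fin n => unif2) ((hmem i).integrable one_le_two)
  have hvar : Var[X; law n] ≤ n := by
    have h1 : Var[X; law n] = ∑ i, Var[f i; unif2] := by
      have := variance_sum_pi (μ := fun _ : Fin n => unif2) (X := f) (fun i => hmem i)
      unfold law
      rw [← this]
      congr 1
      funext w
      simp only [hX, Finset.sum_apply]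
    rw [h1]
    calc ∑ i, Var[f i; unif2] ≤ ∑ _i : Fin n, (1 : ℝ) := by
          refine Finset.sum_le_sum fun i _ => ?_
          refine (variance_le_expectation_sq (hfm i).aestronglyMeasurable).trans ?_
          have h2 : ∫ p, (f i ^ 2) p ∂unif2 ≤ ∫ _p, (1 : ℝ) ∂unif2 := by
            refine integral_mono (hmem i).integrable_sq (integrable_const _) fun p => ?_
            simp only [Pi.pow_apply]
            have := hfb i p
            rw [← sq_abs]
            nlinarith [abs_nonneg (f i p)]
          simpa using h2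
      _ = n := by simp
  have hsq : ∫ w, X w ^ 2 ∂(law n) ≤ n := by
    have h1 := variance_eq_sub hXL
    rw [hXmean] at h1
    have h2 : ∫ w, (X ^ 2) w ∂(law n) = ∫ w, X w ^ 2 ∂(law n) := rfl
    rw [h2] at h1
    simp only [ne_eq, OfNat.ofNat_ne_zero, not_false_eq_true, zero_pow, sub_zero] at h1
    rw [← h1]
    exact hvar
  have hn' : (0 : ℝ) < n := by exact_mod_cast hn
  have hs0 : 0 < Real.sqrt n := Real.sqrt_pos.2 hn'
  have hXi2 : Integrable (fun w => X w ^ 2) (law n) := hXL.integrable_sq
  calc ∫ w, |∑ i ∈ B, (s.indicator (fun _ => (1 : ℝ)) (w i) - unif2.real s)| ∂(law n)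
      = ∫ w, |X w| ∂(law n) := integral_congr_ae (Eventually.of_forall fun w => by
        simp only [hX]; rw [hsum w])
    _ ≤ ∫ w, (X w ^ 2 * (1 / (2 * Real.sqrt n)) + Real.sqrt n / 2) ∂(law n) := by
        refine integral_mono hXi.abs ((hXi2.mul_const _).add (integrable_const _)) fun w => ?_
        simp only
        have h1 : |X w| * (2 * Real.sqrt n) ≤ X w ^ 2 + Real.sqrt n ^ 2 := by
          rw [← sq_abs (X w)]
          nlinarith [sq_nonneg (|X w| - Real.sqrt n)]
        have h2 : |X w| ≤ (X w ^ 2 + Real.sqrt n ^ 2) / (2 * Real.sqrt n) := by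
          rw [le_div_iff₀ (by positivity)]; exact h1
        refine h2.trans (le_of_eq ?_)
        field_simp
    _ = (∫ w, X w ^ 2 ∂(law n)) * (1 / (2 * Real.sqrt n)) + Real.sqrt n / 2 := by
        rw [integral_add (hXi2.mul_const _) (integrable_const _), integral_mul_const, integral_const,
          probReal_univ, one_smul]
    _ ≤ n * (1 / (2 * Real.sqrt n)) + Real.sqrt n / 2 := by
        have := mul_le_mul_of_nonneg_right hsq (by positivity : 0 ≤ 1 / (2 * Real.sqrt n))
        linarith
    _ = Real.sqrt n := by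
        have h1 : (n : ℝ) = Real.sqrt n * Real.sqrt n := (Real.mul_self_sqrt hn'.le).symm
        conv_lhs => rw [h1]
        rw [Real.sqrt_mul_self hs0.le]
        field_simp
        ring

end Pool.Agent.X145.KW
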